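import Mathlib

/-!
# Drazin invertibility of upper triangular operator matrices: definitions
-/

set_option autoImplicit false

namespace Pool.Agent.Q186.Drazin

section basic

variable {X : Type*} [NormedAddCommGroup X] [NormedSpace ℂ X]

/-- The kernel of a bounded operator. -/
def ker (T : X →L[ℂ] X) : Submodule ℂ X := LinearMap.ker T.toLinearMap

/-- The range of a bounded operator. -/
def ran (T : X →L[ℂ] X) : Submodule ℂ X := LinearMap.range T.toLinearMap

/-- `a` is the ascent of `T`: the least `k` with `N(T^(k+1)) = N(T^k)`. -/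
def IsAscent (T : X →L[ℂ] X) (a : ℕ) : Prop := IsLeast {k : ℕ | ker (T ^ (k + 1)) = ker (T ^ k)} a

/-- `d` is the descent of `T`: the least `k` with `R(T^(k+1)) = R(T^k)`. -/
def IsDescent (T : X →L[ℂ] X) (d : ℕ) : Prop := IsLeast {k : ℕ | ran (T ^ (k + 1)) = ran (T ^ k)} d

/-- `T` is left Drazin invertible: `asc T < ∞` and `R(T^(asc T + 1))` is closed. -/
def LeftDrazin (T : X →L[ℂ] X) : Prop := ∃ a, IsAscent T a ∧ IsClosed (ran (T ^ (a + 1)) : Set X)

/-- `T` is right Drazin invertible: `dsc T < ∞` and `R(T^(dsc T))` is closed. -/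
def RightDrazin (T : X →L[ℂ] X) : Prop := ∃ d, IsDescent T d ∧ IsClosed (ran (T ^ d) : Set X)

/-- `T` is Drazin invertible: the ascent and the descent of `T` are finite. -/
def DrazinInvertible (T : X →L[ℂ] X) : Prop := (∃ a, IsAscent T a) ∧ ∃ d, IsDescent T d

/-- The dimension of a subspace, as an element of `{0, 1, 2, ..., ∞}`. -/
noncomputable def dim (W : Submodule ℂ X) : ℕ∞ := Cardinal.toENat (Module.rank ℂ W)

end basic

section pair

variable {H K : Type*} [NormedAddCommGroup H] [InnerProductSpace ℂ H]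
  [NormedAddCommGroup K] [InnerProductSpace ℂ K]

/-- The operator matrix `M_C` with the rows `(A, C)` and `(0, B)`. -/
noncomputable def MC (A : H →L[ℂ] H) (B : K →L[ℂ] K) (C : K →L[ℂ] H) : H × K →L[ℂ] H × K :=
  (A.comp (ContinuousLinearMap.fst ℂ H K) + C.comp (ContinuousLinearMap.snd ℂ H K)).prod
    (B.comp (ContinuousLinearMap.snd ℂ H K))

/-- Condition (iii): `d(A - z) = n(B - z)` for all small `z ≠ 0`. -/
def CondIII (A : H →L[ℂ] H) (B : K →L[ℂ] K) : Prop :=
  ∃ δ : ℝ, 0 < δ ∧ ∀ z : ℂ, 0 < ‖z‖ → ‖z‖ < δ → dim (ran (A - z • 1))ᗮ = dim (ker (B - z • 1))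

/-- `p ≥ max {1, asc A, dsc B}`; in particular `asc A` and `dsc B` are finite. -/
def IsExponent (A : H →L[ℂ] H) (B : K →L[ℂ] K) (p : ℕ) : Prop :=
  1 ≤ p ∧ (∃ a, IsAscent A a ∧ a ≤ p) ∧ ∃ d, IsDescent B d ∧ d ≤ p

/-- The subspace `S = R(A) + N(A^p)`. -/
def S (A : H →L[ℂ] H) (p : ℕ) : Submodule ℂ H := ran A ⊔ ker (A ^ p)

/-- The subspace `T`, the closure of `N(B) ∩ R(B^p)`. -/
def T (B : K →L[ℂ] K) (p : ℕ) : Submodule ℂ K := (ker B ⊓ ran (B ^ p)).topologicalClosure

/-- Condition (E): `S` is closed and `dim S^⊥ = dim T`. -/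
def CondE (A : H →L[ℂ] H) (B : K →L[ℂ] K) (p : ℕ) : Prop :=
  IsClosed (S A p : Set H) ∧ dim (S A p)ᗮ = dim (T B p)

/-- `C` is admissible: there is an invertible bounded operator `J` from `T` onto `S^⊥` such that
`C = J` on `T` and `C = 0` on `T^⊥`. -/
def Admissible (A : H →L[ℂ] H) (B : K →L[ℂ] K) (p : ℕ) (C : K →L[ℂ] H) : Prop :=
  ∃ J : T B p ≃L[ℂ] (S A p)ᗮ, (∀ t : T B p, C t = J t) ∧ ∀ x ∈ (T B p)ᗮ, C x = 0

variable (H K)

/-- The statement of Q1 fails for the spaces `H` and `K`: there are `A` left Drazin invertible,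
`B` with `dsc B < ∞`, with condition (iii), an exponent `p` and an admissible `C` for which `M_C`
is not Drazin invertible. -/
def FailsQ1 : Prop :=
  ∃ (A : H →L[ℂ] H) (B : K →L[ℂ] K) (C : K →L[ℂ] H) (p : ℕ),
    LeftDrazin A ∧ (∃ d, IsDescent B d) ∧ CondIII A B ∧ IsExponent A B p ∧ CondE A B p ∧
      Admissible A B p C ∧ ¬ DrazinInvertible (MC A B C)

/-- The statement of Q2 holds for the spaces `H` and `K`, even without condition (iii): if
`asc A < ∞`, `B` is right Drazin invertible, `p` is an exponent and (E) holds, then `M_C` is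
Drazin invertible for all admissible `C`. -/
def HoldsQ2 : Prop :=
  ∀ (A : H →L[ℂ] H) (B : K →L[ℂ] K) (C : K →L[ℂ] H) (p : ℕ),
    (∃ a, IsAscent A a) → RightDrazin B → IsExponent A B p → CondE A B p →
      Admissible A B p C → DrazinInvertible (MC A B C)

end pair

end Pool.Agent.Q186.Drazin
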