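import Mathlib
import Pool.Agent.Q186.Drazin.Defs

set_option autoImplicit false

namespace Pool.Agent.Q186.Drazin

section basic

variable {X : Type*} [NormedAddCommGroup X] [NormedSpace ℂ X]

lemma mem_ker {T : X →L[ℂ] X} {x : X} : x ∈ ker T ↔ T x = 0 := LinearMap.mem_ker

lemma mem_ran {T : X →L[ℂ] X} {x : X} : x ∈ ran T ↔ ∃ y, T y = x := LinearMap.mem_range

lemma pow_succ_apply (T : X →L[ℂ] X) (n : ℕ) (x : X) : (T ^ (n + 1)) x = T ((T ^ n) x) := by
  rw [pow_succ']; rfl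

lemma pow_succ_apply' (T : X →L[ℂ] X) (n : ℕ) (x : X) : (T ^ (n + 1)) x = (T ^ n) (T x) := by
  rw [pow_succ]; rfl

lemma pow_add_apply (T : X →L[ℂ] X) (m n : ℕ) (x : X) :
    (T ^ (m + n)) x = (T ^ m) ((T ^ n) x) := by
  rw [pow_add]; rfl

lemma ker_stable {T : X →L[ℂ] X} {a : ℕ} (h : ker (T ^ (a + 1)) = ker (T ^ a)) {n : ℕ}
    (hn : a ≤ n) {x : X} (hx : (T ^ (n + 1)) x = 0) : (T ^ n) x = 0 := by
  obtain ⟨k, rfl⟩ := Nat.exists_eq_add_of_le hn
  rw [show a + k + 1 = (a + 1) + k by ring, pow_add_apply] at hx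
  have h1 : (T ^ k) x ∈ ker (T ^ (a + 1)) := mem_ker.2 hx
  rw [h] at h1
  rw [pow_add_apply]
  exact mem_ker.1 h1

lemma ran_stable {T : X →L[ℂ] X} {d : ℕ} (h : ran (T ^ (d + 1)) = ran (T ^ d)) (k : ℕ) :
    ran (T ^ (d + k)) = ran (T ^ d) := by
  induction k with
  | zero => rfl
  | succ k ih =>
    apply le_antisymm
    · rintro _ ⟨y, rfl⟩
      refine ⟨(T ^ (k + 1)) y, ?_⟩
      exact (pow_add_apply T d (k + 1) y).symm
    · intro x hx
      rw [← ih] at hx
      obtain ⟨y, rfl⟩ := hx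
      change (T ^ (d + k)) y ∈ _
      have h1 : (T ^ d) y ∈ ran (T ^ (d + 1)) := by rw [h]; exact ⟨y, rfl⟩
      obtain ⟨z, hz⟩ := h1
      have hz' : (T ^ (d + 1)) z = (T ^ d) y := hz
      refine ⟨z, ?_⟩
      change (T ^ (d + (k + 1))) z = (T ^ (d + k)) y
      rw [show d + (k + 1) = k + (d + 1) by ring, pow_add_apply, hz', ← pow_add_apply]
      congr 2
      ring

lemma exists_ascent {T : X →L[ℂ] X} {p : ℕ} (h : ∀ x, (T ^ (p + 1)) x = 0 → (T ^ p) x = 0) :
    ∃ a, IsAscent T a := by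
  classical
  have hne : ∃ k, ker (T ^ (k + 1)) = ker (T ^ k) := by
    refine ⟨p, le_antisymm (fun x hx => mem_ker.2 (h x (mem_ker.1 hx))) fun x hx => mem_ker.2 ?_⟩
    rw [pow_succ_apply, mem_ker.1 hx, map_zero]
  exact ⟨Nat.find hne, Nat.find_spec hne, fun k hk => Nat.find_min' hne hk⟩

lemma exists_descent {T : X →L[ℂ] X} {p : ℕ} (h : ∀ x, ∃ u, (T ^ p) x = (T ^ (p + 1)) u) :
    ∃ a, IsDescent T a := by
  classical
  have hne : ∃ k, ran (T ^ (k + 1)) = ran (T ^ k) := by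
    refine ⟨p, le_antisymm ?_ ?_⟩
    · rintro _ ⟨y, rfl⟩
      exact ⟨T y, (pow_succ_apply' T p y).symm⟩
    · rintro _ ⟨y, rfl⟩
      obtain ⟨u, hu⟩ := h y
      exact ⟨u, hu.symm⟩
  exact ⟨Nat.find hne, Nat.find_spec hne, fun k hk => Nat.find_min' hne hk⟩

end basic

section pair

variable {H K : Type*} [NormedAddCommGroup H] [InnerProductSpace ℂ H]
  [NormedAddCommGroup K] [InnerProductSpace ℂ K]

variable {A : H →L[ℂ] H} {B : K →L[ℂ] K} {C : K →L[ℂ] H}

lemma MC_apply (x : H × K) : MC A B C x = (A x.1 + C x.2, B x.2) := rfl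

lemma MC_pow_snd (n : ℕ) (x : H × K) : ((MC A B C ^ n) x).2 = (B ^ n) x.2 := by
  induction n with
  | zero => rfl
  | succ n ih => rw [pow_succ_apply, pow_succ_apply, MC_apply, ih]

lemma MC_pow_fst (n : ℕ) (x : H × K) :
    ((MC A B C ^ (n + 1)) x).1 = A ((MC A B C ^ n) x).1 + C ((B ^ n) x.2) := by
  rw [pow_succ_apply, MC_apply, MC_pow_snd]

lemma disjoint_of_mem (W : Submodule ℂ H) {x : H} (h1 : x ∈ W) (h2 : x ∈ Wᗮ) : x = 0 := by
  have := (Submodule.mem_orthogonal W x).1 h2 x h1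
  exact inner_self_eq_zero.1 this

/-- the ascent of `M_C` is finite -/
lemma ascent_MC {p a : ℕ} (ha : IsAscent A a) (hap : a ≤ p)
    (hT : (T B p : Set K) = {x | B x = 0 ∧ ∃ y, (B ^ p) y = x})
    (hC : Admissible A B p C) (hCS : ∀ x, C x ∈ (S A p)ᗮ) (x : H × K)
    (hx : (MC A B C ^ (p + 1)) x = 0) : (MC A B C ^ p) x = 0 := by
  obtain ⟨J, hJ1, hJ2⟩ := hC
  have hS1 : ∀ y, A y ∈ S A p := fun y => Submodule.mem_sup_left ⟨y, rfl⟩
  have hS2 : ∀ i, i ≤ p → ∀ y, (A ^ i) y = 0 → y ∈ S A p := by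
    intro i hi y hy
    refine Submodule.mem_sup_right (mem_ker.2 ?_)
    obtain ⟨k, rfl⟩ := Nat.exists_eq_add_of_le hi
    rw [add_comm, pow_add_apply, hy, map_zero]
  set h : ℕ → H := fun n => ((MC A B C ^ n) x).1 with hh
  have hstep : ∀ n, h (n + 1) = A (h n) + C ((B ^ n) x.2) := fun n => MC_pow_fst n x
  have key : ∀ i, i ≤ p + 1 → (A ^ i) (h (p + 1 - i)) = 0 ∧
      ∀ j, p + 1 - i ≤ j → j ≤ p → C ((B ^ j) x.2) = 0 ∧ h (j + 1) = A (h j) := by
    intro i
    induction i with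
    | zero =>
      intro _
      refine ⟨?_, fun j h1 h2 => by omega⟩
      simp only [pow_zero, Nat.sub_zero, hh, hx]
      rfl
    | succ i ih =>
      intro hi
      obtain ⟨h1, h2⟩ := ih (by omega)
      have e1 : p + 1 - i = (p + 1 - (i + 1)) + 1 := by omega
      have h3 := hstep (p + 1 - (i + 1))
      rw [← e1] at h3
      have h4 : C ((B ^ (p + 1 - (i + 1))) x.2) = 0 := by
        refine disjoint_of_mem (S A p) ?_ (hCS _)
        have h5 : C ((B ^ (p + 1 - (i + 1))) x.2) =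
            h (p + 1 - i) - A (h (p + 1 - (i + 1))) := by
          rw [h3]; abel
        rw [h5]
        exact Submodule.sub_mem _ (hS2 i (by omega) _ h1) (hS1 _)
      rw [h4, add_zero] at h3
      refine ⟨?_, fun j h5 h6 => ?_⟩
      · rw [pow_succ_apply', ← h3]; exact h1
      · by_cases h7 : j = p + 1 - (i + 1)
        · subst h7
          refine ⟨h4, ?_⟩
          rw [← e1, h3]
        · exact h2 j (by omega) h6
  obtain ⟨k1, k2⟩ := key (p + 1) le_rfl
  have k3 : ∀ j, j ≤ p + 1 → h j = (A ^ j) (h 0) := by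
    intro j
    induction j with
    | zero => intro _; rfl
    | succ j ih =>
      intro hj
      rw [(k2 j (by omega) (by omega)).2, ih (by omega), pow_succ_apply]
  have k4 : h p = 0 := by
    rw [k3 p (by omega)]
    refine ker_stable ha.1 hap ?_
    simpa using k1
  have k5 : (B ^ p) x.2 = 0 := by
    have h1 : B ((B ^ p) x.2) = 0 := by
      rw [← pow_succ_apply, ← MC_pow_snd (A := A) (C := C), hx]; rfl
    have h2 : (B ^ p) x.2 ∈ T B p := by
      change (B ^ p) x.2 ∈ (T B p : Set K)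
      rw [hT]
      exact ⟨h1, x.2, rfl⟩
    have h3 := (k2 p (by omega) le_rfl).1
    have h4 := hJ1 ⟨_, h2⟩
    simp only at h4
    rw [h3] at h4
    have h5 : J ⟨(B ^ p) x.2, h2⟩ = 0 := Subtype.ext h4.symm
    have h6 : (⟨(B ^ p) x.2, h2⟩ : T B p) = 0 := by
      simpa using h5
    exact congrArg Subtype.val h6
  refine Prod.ext k4 ?_
  rw [MC_pow_snd]
  exact k5

lemma MC_pow_fst_zero (n : ℕ) (h : H) : (MC A B C ^ n) (h, 0) = ((A ^ n) h, 0) := by
  induction n with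
  | zero => rfl
  | succ n ih =>
    rw [pow_succ_apply, ih, MC_apply, pow_succ_apply]
    exact Prod.ext (by simp) (by simp)

/-- if `C B^j x = 0` for `j < n` and `B^n x = 0` then `(0, x)` is in the kernel of `M_C^n` -/
lemma MC_pow_zero_snd (n : ℕ) (x : K) (h : ∀ j < n, C ((B ^ j) x) = 0) :
    (MC A B C ^ n) (0, x) = (0, (B ^ n) x) := by
  induction n with
  | zero => rfl
  | succ n ih =>
    rw [pow_succ_apply, ih fun j hj => h j (by omega), MC_apply, pow_succ_apply]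
    refine Prod.ext ?_ rfl
    simp only [map_zero, zero_add]
    exact h n (by omega)

/-- modification by an element of `R(B)` -/
lemma correction {W : Submodule ℂ K} [W.HasOrthogonalProjection] (h1 : ∀ t ∈ W, B t = 0)
    (h2 : ∀ m, ∀ t ∈ W, ∃ z, (B ^ m) z = t) (m : ℕ) :
    ∀ x : K, ∃ y, (∃ y', B y' = y) ∧ (B ^ m) y = 0 ∧ ∀ j < m, (B ^ j) (x - y) ∈ Wᗮ := by
  induction m with
  | zero =>
    intro x
    exact ⟨0, ⟨0, map_zero _⟩, rfl, fun j hj => by omega⟩
  | succ m ih =>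
    intro x
    obtain ⟨y, ⟨y', hy'⟩, hy1, hy2⟩ := ih x
    obtain ⟨t, ht, r, hr, htr⟩ := W.exists_add_mem_mem_orthogonal ((B ^ m) x)
    obtain ⟨z, hz⟩ := h2 (m + 1) t ht
    obtain ⟨w, ⟨w', hw'⟩, hw1, hw2⟩ := ih (B z)
    refine ⟨y + (B z - w), ⟨y' + (z - w'), ?_⟩, ?_, ?_⟩
    · rw [map_add, map_sub, hy', hw']
    · rw [pow_succ_apply, map_add, map_sub, hy1, hw1, ← pow_succ_apply', hz, zero_add, sub_zero,
        h1 t ht]
    · intro j hj
      rcases Nat.lt_succ_iff_lt_or_eq.1 hj with h | h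
      · have : (B ^ j) (x - (y + (B z - w))) = (B ^ j) (x - y) - (B ^ j) (B z - w) := by
          rw [← map_sub]; congr 1; abel
        rw [this]
        exact Wᗮ.sub_mem (hy2 j h) (hw2 j h)
      · subst h
        have : (B ^ j) (x - (y + (B z - w))) = r := by
          rw [map_sub, map_add, map_sub, hy1, hw1, ← pow_succ_apply', hz, htr]; abel
        rw [this]; exact hr

/-- the descent of `M_C` is finite -/
lemma descent_MC [CompleteSpace H] [CompleteSpace K] {p d : ℕ} (hd : IsDescent B d) (hdp : d ≤ p)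
    (hT : (T B p : Set K) = {x | B x = 0 ∧ ∃ y, (B ^ p) y = x})
    (hS : IsClosed (S A p : Set H))
    (hC : Admissible A B p C) (x : H × K) : ∃ u, (MC A B C ^ p) x = (MC A B C ^ (p + 1)) u := by
  obtain ⟨J, hJ1, hJ2⟩ := hC
  have : CompleteSpace (T B p) :=
    (Submodule.isClosed_topologicalClosure _).completeSpace_coe
  have : CompleteSpace (S A p) := hS.completeSpace_coe
  have hTm : ∀ t ∈ T B p, B t = 0 ∧ ∃ y, (B ^ p) y = t := by
    intro t ht
    have : t ∈ (T B p : Set K) := ht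
    rw [hT] at this
    exact this
  -- every power of `B` has `T` in its range
  have hTr : ∀ m, ∀ t ∈ T B p, ∃ z, (B ^ m) z = t := by
    intro m t ht
    obtain ⟨y, hy⟩ := (hTm t ht).2
    have h1 : t ∈ ran (B ^ d) := by
      obtain ⟨k, rfl⟩ := Nat.exists_eq_add_of_le hdp
      exact ⟨(B ^ k) y, by rw [← hy]; exact (pow_add_apply B d k y).symm⟩
    rw [← ran_stable hd.1 m] at h1
    obtain ⟨z, hz⟩ := h1
    refine ⟨(B ^ d) z, ?_⟩
    rw [← pow_add_apply, add_comm]; exact hz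
  -- `K = R(B) + N(B^p)`
  have hK : ∀ v : K, ∃ v' v'', v = B v' + v'' ∧ (B ^ p) v'' = 0 := by
    intro v
    have h1 : (B ^ p) v ∈ ran (B ^ (p + 1)) := by
      obtain ⟨k, rfl⟩ := Nat.exists_eq_add_of_le hdp
      rw [show d + k + 1 = d + (k + 1) by ring, ran_stable hd.1, ← ran_stable hd.1 k]
      exact ⟨v, rfl⟩
    obtain ⟨v', hv'⟩ := h1
    have hv'' : (B ^ (p + 1)) v' = (B ^ p) v := hv'
    refine ⟨v', v - B v', by abel, ?_⟩
    rw [map_sub, ← pow_succ_apply', hv'', sub_self]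
  -- `X = R(M) + N(M^p)`
  suffices hX : ∃ u n : H × K, x = MC A B C u + n ∧ (MC A B C ^ p) n = 0 by
    obtain ⟨u, n, hx, hn⟩ := hX
    refine ⟨u, ?_⟩
    rw [hx, map_add, hn, add_zero, pow_succ_apply']
  obtain ⟨u, v⟩ := x
  obtain ⟨v', v'', hv, hv''⟩ := hK v
  obtain ⟨y, ⟨y', hy'⟩, hy1, hy2⟩ := correction (fun t ht => (hTm t ht).1) hTr p v''
  -- the part `(0, v'' - y)` is in `N(M^p)`
  have hn : (MC A B C ^ p) ((0 : H), v'' - y) = 0 := by
    rw [MC_pow_zero_snd p _ fun j hj => hJ2 _ (hy2 j hj)]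
    rw [map_sub, hv'', hy1, sub_zero]; rfl
  -- decompose the first component
  obtain ⟨s, hs, r, hr, hsr⟩ :=
    (S A p).exists_add_mem_mem_orthogonal (u - C v' - C y')
  obtain ⟨_, ⟨a, rfl⟩, b, hb, hab⟩ := Submodule.mem_sup.1 hs
  set t : T B p := J.symm ⟨r, hr⟩ with ht
  have hJt : C t = r := by
    rw [hJ1, ht, ContinuousLinearEquiv.apply_symm_apply]
  have hBt : B t = 0 := (hTm t t.2).1
  refine ⟨(a, v' + y' + t), (b, v'' - y), ?_, ?_⟩
  · refine Prod.ext ?_ ?_
    · change u = A a + C (v' + y' + t) + b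
      rw [map_add, map_add, hJt]
      have hab' : A a + b = s := hab
      have : u = (s + r) + C v' + C y' := by rw [← hsr]; abel
      rw [this, ← hab']; abel
    · change v = B (v' + y' + t) + (v'' - y)
      rw [map_add, map_add, hBt, hy', hv]; abel
  · have h1 : ((b, v'' - y) : H × K) = (b, 0) + (0, v'' - y) := by simp
    rw [h1, map_add, hn, add_zero, MC_pow_fst_zero]
    rw [mem_ker.1 hb]; rfl

/-- **Q2.** -/
theorem drazin_of_right [CompleteSpace H] [CompleteSpace K] {p a d : ℕ} (ha : IsAscent A a)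
    (hap : a ≤ p) (hd : IsDescent B d) (hdp : d ≤ p) (hcl : IsClosed (ran (B ^ d) : Set K))
    (hE : CondE A B p) (hC : Admissible A B p C) : DrazinInvertible (MC A B C) := by
  have hran : ran (B ^ p) = ran (B ^ d) := by
    obtain ⟨k, rfl⟩ := Nat.exists_eq_add_of_le hdp
    exact ran_stable hd.1 k
  have hT : (T B p : Set K) = {x | B x = 0 ∧ ∃ y, (B ^ p) y = x} := by
    have hclosed : IsClosed ((ker B ⊓ ran (B ^ p) : Submodule ℂ K) : Set K) := by
      rw [Submodule.coe_inf, hran]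
      refine IsClosed.inter ?_ hcl
      exact isClosed_singleton.preimage B.continuous
    unfold T
    rw [Submodule.topologicalClosure_coe, hclosed.closure_eq]
    ext x
    simp only [Submodule.coe_inf, Set.mem_inter_iff, SetLike.mem_coe, mem_ker, mem_ran,
      Set.mem_ofPred_eq]
  have hCS : ∀ x, C x ∈ (S A p)ᗮ := by
    intro x
    have : CompleteSpace (T B p) :=
      (Submodule.isClosed_topologicalClosure _).completeSpace_coe
    obtain ⟨J, hJ1, hJ2⟩ := hC
    obtain ⟨t, ht, r, hr, htr⟩ := (T B p).exists_add_mem_mem_orthogonal x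
    rw [htr, map_add, hJ2 r hr, add_zero]
    have := hJ1 ⟨t, ht⟩
    simp only at this
    rw [this]
    exact (J ⟨t, ht⟩).2
  exact ⟨exists_ascent (p := p) (ascent_MC ha hap hT hC hCS),
    exists_descent (p := p) (descent_MC hd hdp hT hE.1 hC)⟩

end pair

end Pool.Agent.Q186.Drazin
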