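import Mathlib
import Pool.Agent.Q186.Drazin.Defs
import Pool.Agent.Q186.Drazin.Two

set_option autoImplicit false

open scoped ENNReal
open Filter Topology

namespace Pool.Agent.Q186.Drazin

/-- the Hilbert space `ℓ²(ℕ × ℕ)` -/
noncomputable abbrev L := lp (fun _ : ℕ × ℕ => ℂ) 2

lemma memL (f : ℕ × ℕ → ℂ) : Memℓp f 2 ↔ Summable fun i => ‖f i‖ ^ 2 := by
  have h := memℓp_gen_iff (E := fun _ : ℕ × ℕ => ℂ) (p := 2) (f := f) (by norm_num)
  simpa using h

lemma normL (f : L) : ‖f‖ ^ 2 = ∑' i, ‖f i‖ ^ 2 := by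
  have h := lp.norm_rpow_eq_tsum (E := fun _ : ℕ × ℕ => ℂ) (p := 2) (by norm_num) f
  simpa using h

lemma summL (f : L) : Summable fun i => ‖f i‖ ^ 2 := (memL _).1 (lp.memℓp f)

/-- weights `w` and an index map `σ` which is injective where `w ≠ 0` -/
structure Good (σ : ℕ × ℕ → ℕ × ℕ) (w : ℕ × ℕ → ℂ) : Prop where
  le : ∀ i, ‖w i‖ ≤ 1
  inj : ∀ i j, w i ≠ 0 → w j ≠ 0 → σ i = σ j → i = j

variable {σ : ℕ × ℕ → ℕ × ℕ} {w : ℕ × ℕ → ℂ}

lemma good_sum (h : Good σ w) (f : L) : (Summable fun i => ‖w i * f (σ i)‖ ^ 2) ∧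
    ∑' i, ‖w i * f (σ i)‖ ^ 2 ≤ ∑' i, ‖f i‖ ^ 2 := by
  classical
  -- the sum over the support
  set s : Set (ℕ × ℕ) := {i | w i ≠ 0} with hs
  have hinj : Function.Injective fun i : s => σ i := fun i j hij =>
    Subtype.ext (h.inj i j i.2 j.2 hij)
  have h1 : Summable fun i : s => ‖f (σ i)‖ ^ 2 := (summL f).comp_injective hinj
  have h2 : ∀ i, ‖w i * f (σ i)‖ ^ 2 = s.indicator (fun i => ‖w i * f (σ i)‖ ^ 2) i := by
    intro i
    by_cases hi : i ∈ s
    · rw [Set.indicator_of_mem hi]
    · rw [Set.indicator_of_notMem hi]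
      have : w i = 0 := by simpa [hs] using hi
      rw [this]; simp
  have h3 : ∀ i : s, ‖w i * f (σ i)‖ ^ 2 ≤ ‖f (σ i)‖ ^ 2 := by
    intro i
    rw [norm_mul]
    have := h.le i
    exact pow_le_pow_left₀ (by positivity) (mul_le_of_le_one_left (norm_nonneg _) this) 2
  have h4 : Summable fun i : s => ‖w i * f (σ i)‖ ^ 2 :=
    Summable.of_nonneg_of_le (fun i => by positivity) h3 h1
  have h5 : Summable fun i => ‖w i * f (σ i)‖ ^ 2 := by
    rw [show (fun i => ‖w i * f (σ i)‖ ^ 2) = s.indicator (fun i => ‖w i * f (σ i)‖ ^ 2) from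
      funext h2]
    exact summable_subtype_iff_indicator.1 h4
  refine ⟨h5, ?_⟩
  calc ∑' i, ‖w i * f (σ i)‖ ^ 2 = ∑' i, s.indicator (fun i => ‖w i * f (σ i)‖ ^ 2) i :=
        tsum_congr h2
    _ = ∑' i : s, ‖w i * f (σ i)‖ ^ 2 := (tsum_subtype s _).symm
    _ ≤ ∑' i : s, ‖f (σ i)‖ ^ 2 := h4.tsum_le_tsum h3 h1
    _ ≤ ∑' i, ‖f i‖ ^ 2 := tsum_comp_le_tsum_of_inj (summL f) (fun i => by positivity) hinj

/-- the bounded operator `f ↦ w · (f ∘ σ)` -/
noncomputable def wc (h : Good σ w) : L →L[ℂ] L :=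
  LinearMap.mkContinuous
    { toFun := fun f => ⟨fun i => w i * f (σ i), (memL _).2 (good_sum h f).1⟩
      map_add' := fun f g => by
        ext i
        simp only [lp.coeFn_add, Pi.add_apply]
        ring
      map_smul' := fun c f => by
        ext i
        simp only [lp.coeFn_smul, Pi.smul_apply, smul_eq_mul, RingHom.id_apply]
        ring } 1 (fun f => by
      rw [one_mul]
      refine le_of_sq_le_sq ?_ (norm_nonneg _)
      rw [normL, normL]
      exact (good_sum h f).2)

lemma wc_apply (h : Good σ w) (f : L) (i : ℕ × ℕ) : wc h f i = w i * f (σ i) := rfl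

/-! ### The three operators -/

/-- the forward shift -/
def sA (i : ℕ × ℕ) : ℕ × ℕ := (i.1 - 1, i.2)

/-- the weights of the forward shift -/
noncomputable def wA (i : ℕ × ℕ) : ℂ := if i.1 = 0 then 0 else 1

/-- the index map of the backward shift -/
def sB (i : ℕ × ℕ) : ℕ × ℕ := (i.1 + 1, i.2)

/-- the weights of the backward shift: `1 / (j + 1)` in the row `0`, otherwise `1` -/
noncomputable def wB (i : ℕ × ℕ) : ℂ := if i.1 = 0 then 1 / ((i.2 : ℂ) + 1) else 1

/-- the projection onto the row `0` -/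
noncomputable def wC (i : ℕ × ℕ) : ℂ := if i.1 = 0 then 1 else 0

lemma goodA : Good sA wA where
  le i := by unfold wA; split_ifs <;> simp
  inj i j hi hj h := by
    unfold wA at hi hj
    simp only [sA, Prod.mk.injEq] at h
    have h1 : i.1 ≠ 0 := by rintro h0; simp [h0] at hi
    have h2 : j.1 ≠ 0 := by rintro h0; simp [h0] at hj
    ext
    · omega
    · exact h.2

lemma goodB : Good sB wB where
  le i := by
    unfold wB
    split_ifs
    · rw [norm_div, norm_one]
      have : ‖(i.2 : ℂ) + 1‖ = (i.2 : ℝ) + 1 := by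
        rw [← Nat.cast_succ, Complex.norm_natCast]; push_cast; rfl
      rw [this, div_le_one (by positivity)]
      have : (0 : ℝ) ≤ i.2 := by positivity
      linarith
    · simp
  inj i j hi hj h := by
    simp only [sB, Prod.mk.injEq] at h
    ext
    · omega
    · exact h.2

lemma goodC : Good id wC where
  le i := by unfold wC; split_ifs <;> simp
  inj i j hi hj h := h

lemma goodB1 : Good sB fun _ => (1 : ℂ) where
  le i := by simp
  inj i j hi hj h := by
    simp only [sB, Prod.mk.injEq] at h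
    ext
    · omega
    · exact h.2

/-- the unweighted backward shift -/
noncomputable def opB1 : L →L[ℂ] L := wc goodB1

lemma opB1_apply (f : L) (i j : ℕ) : opB1 f (i, j) = f (i + 1, j) := by
  unfold opB1; rw [wc_apply, one_mul]; rfl

noncomputable def opA : L →L[ℂ] L := wc goodA
noncomputable def opB : L →L[ℂ] L := wc goodB
noncomputable def opC : L →L[ℂ] L := wc goodC

lemma opA_zero (f : L) (j : ℕ) : opA f (0, j) = 0 := by
  unfold opA; rw [wc_apply]; simp [wA]

lemma opA_succ (f : L) (i j : ℕ) : opA f (i + 1, j) = f (i, j) := by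
  unfold opA; rw [wc_apply]; simp [wA, sA]

lemma opB_zero (f : L) (j : ℕ) : opB f (0, j) = 1 / ((j : ℂ) + 1) * f (1, j) := by
  unfold opB; rw [wc_apply]; simp [wB, sB]

lemma opB_succ (f : L) (i j : ℕ) : opB f (i + 1, j) = f (i + 2, j) := by
  unfold opB; rw [wc_apply]; simp [wB, sB]

lemma opC_zero (f : L) (j : ℕ) : opC f (0, j) = f (0, j) := by
  unfold opC; rw [wc_apply]; simp [wC]

lemma opC_succ (f : L) (i j : ℕ) : opC f (i + 1, j) = 0 := by
  unfold opC; rw [wc_apply]; simp [wC]

lemma ext_L {f g : L} (h0 : ∀ j, f (0, j) = g (0, j)) (h1 : ∀ i j, f (i + 1, j) = g (i + 1, j)) :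
    f = g := by
  ext ⟨i, j⟩
  cases i with
  | zero => exact h0 j
  | succ i => exact h1 i j

/-- the row `0` -/
def Row0 : Submodule ℂ L where
  carrier := {f | ∀ i j, f (i + 1, j) = 0}
  add_mem' {f g} hf hg i j := by
    rw [lp.coeFn_add, Pi.add_apply, hf i j, hg i j, add_zero]
  zero_mem' i j := by rw [lp.coeFn_zero, Pi.zero_apply]
  smul_mem' c f hf i j := by
    rw [lp.coeFn_smul, Pi.smul_apply, hf i j, smul_zero]

lemma mem_Row0 {f : L} : f ∈ Row0 ↔ ∀ i j, f (i + 1, j) = 0 := Iff.rfl

lemma eval_continuous (i : ℕ × ℕ) : Continuous fun f : L => f i := by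
  have h : ∀ f : L, ‖f i‖ ≤ ‖f‖ := fun f => lp.norm_apply_le_norm (by norm_num) f i
  let ev : L →ₗ[ℂ] ℂ :=
    { toFun := fun f => f i
      map_add' := fun f g => by rw [lp.coeFn_add]; rfl
      map_smul' := fun c f => by rw [lp.coeFn_smul]; rfl }
  exact (ev.mkContinuous 1 (fun f => by rw [one_mul]; exact h f)).continuous

lemma Row0_closed : IsClosed (Row0 : Set L) := by
  have : (Row0 : Set L) = ⋂ i : ℕ, ⋂ j : ℕ, {f | f (i + 1, j) = 0} := by
    ext f
    simp only [SetLike.mem_coe, mem_Row0, Set.mem_iInter, Set.mem_ofPred_eq]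
  rw [this]
  exact isClosed_iInter fun i => isClosed_iInter fun j =>
    isClosed_eq (eval_continuous _) continuous_const

lemma opA_inj {f : L} (h : opA f = 0) : f = 0 := by
  ext ⟨i, j⟩
  rw [← opA_succ, h]; rfl

lemma ascent_A : IsAscent opA 0 := by
  refine ⟨?_, fun k _ => Nat.zero_le k⟩
  change ker (opA ^ (0 + 1)) = ker (opA ^ 0)
  refine le_antisymm (fun f hf => ?_) (fun f hf => ?_)
  · have h1 : opA f = 0 := by simpa using mem_ker.1 hf
    rw [opA_inj h1]; exact Submodule.zero_mem _
  · have h1 : f = 0 := by simpa using mem_ker.1 hf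
    rw [h1]; exact Submodule.zero_mem _

/-- the range of `A` consists of the vectors which vanish in the row `0` -/
lemma ran_A : ∀ f : L, f ∈ ran opA ↔ ∀ j, f (0, j) = 0 := by
  intro f
  constructor
  · rintro ⟨g, rfl⟩ j
    exact opA_zero g j
  · intro h
    refine ⟨opB1 f, ?_⟩
    change opA (opB1 f) = f
    refine ext_L (fun j => ?_) fun i j => ?_
    · rw [opA_zero, h j]
    · rw [opA_succ, opB1_apply]

lemma S_eq : S opA 1 = ran opA := by
  unfold S
  rw [sup_eq_left]
  intro f hf
  have h1 : opA f = 0 := by simpa using mem_ker.1 hf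
  rw [opA_inj h1]; exact Submodule.zero_mem _

lemma ran_A_closed : IsClosed (ran opA : Set L) := by
  have : (ran opA : Set L) = ⋂ j : ℕ, {f | f (0, j) = 0} := by
    ext f
    simp only [SetLike.mem_coe, ran_A, Set.mem_iInter, Set.mem_ofPred_eq]
  rw [this]
  exact isClosed_iInter fun j => isClosed_eq (eval_continuous _) continuous_const

lemma leftDrazin_A : LeftDrazin opA := by
  refine ⟨0, ascent_A, ?_⟩
  simpa using ran_A_closed

lemma inner_single (i : ℕ × ℕ) (f : L) : inner ℂ (lp.single 2 i (1 : ℂ) : L) f = f i := by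
  rw [lp.inner_single_left]; simp

lemma single_apply (i k : ℕ × ℕ) (c : ℂ) : (lp.single 2 i c : L) k = if k = i then c else 0 := by
  by_cases h : k = i
  · subst h; rw [if_pos rfl]; exact lp.single_apply_self (E := fun _ : ℕ × ℕ => ℂ) 2 k c
  · rw [if_neg h]; exact lp.single_apply_ne (E := fun _ : ℕ × ℕ => ℂ) 2 i c h

lemma S_perp : (S opA 1)ᗮ = Row0 := by
  rw [S_eq]
  ext f
  rw [Submodule.mem_orthogonal]
  constructor
  · intro h i j
    rw [← inner_single]
    refine h _ ((ran_A _).2 fun k => ?_)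
    rw [single_apply, if_neg (by simp)]
  · intro hf g hg
    rw [lp.inner_eq_tsum]
    refine (tsum_congr fun p => ?_).trans tsum_zero
    obtain ⟨i, j⟩ := p
    cases i with
    | zero => rw [(ran_A g).1 hg j, inner_zero_left]
    | succ i => rw [hf i j, inner_zero_right]

lemma ker_B {f : L} (h : opB f = 0) : f ∈ Row0 := by
  intro i j
  cases i with
  | zero =>
    have h1 : opB f (0, j) = 0 := by rw [h]; rfl
    rw [opB_zero] at h1
    have : ((j : ℂ) + 1) ≠ 0 := by exact_mod_cast Nat.succ_ne_zero j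
    simpa [this] using h1
  | succ i =>
    have h1 : opB f (i + 1, j) = 0 := by rw [h]; rfl
    rwa [opB_succ] at h1

lemma opB_Row0 {f : L} (h : f ∈ Row0) : opB f = 0 := by
  refine ext_L (fun j => ?_) fun i j => ?_
  · rw [opB_zero, h 0 j, mul_zero]; rfl
  · rw [opB_succ, h (i + 1) j]; rfl

lemma single_mem (f : L) (hf : f ∈ Row0) (p : ℕ × ℕ) :
    (lp.single 2 p (f p) : L) ∈ (ker opB ⊓ ran (opB ^ 1) : Submodule ℂ L) := by
  obtain ⟨i, j⟩ := p
  cases i with
  | zero =>
    refine ⟨mem_ker.2 (opB_Row0 fun i' j' => ?_), ?_⟩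
    · rw [single_apply, if_neg (by simp)]
    · refine ⟨(lp.single 2 (1, j) (((j : ℂ) + 1) * f (0, j)) : L), ?_⟩
      change (opB ^ 1) (lp.single 2 (1, j) (((j : ℂ) + 1) * f (0, j)) : L) = _
      rw [pow_one]
      have h0 : ((j : ℂ) + 1) ≠ 0 := by exact_mod_cast Nat.succ_ne_zero j
      refine ext_L (fun k => ?_) fun i k => ?_
      · rw [opB_zero, single_apply, single_apply]
        by_cases hk : k = j
        · subst hk
          rw [if_pos rfl, if_pos rfl]
          field_simp
        · rw [if_neg (by simp [hk]), if_neg (by simp [hk]), mul_zero]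
      · rw [opB_succ, single_apply, single_apply, if_neg (by simp), if_neg (by simp)]
  | succ i =>
    rw [hf i j]
    have : (lp.single 2 (i + 1, j) (0 : ℂ) : L) = 0 := by
      ext k
      rw [single_apply]
      simp
    rw [this]
    exact Submodule.zero_mem _

lemma hasSum_L (f : L) : HasSum (fun p => (lp.single 2 p (f p) : L)) f :=
  lp.hasSum_single (by norm_num) f

lemma T_eq : T opB 1 = Row0 := by
  unfold T
  apply le_antisymm
  · refine Submodule.topologicalClosure_minimal _ ?_ Row0_closed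
    intro f hf
    exact ker_B (mem_ker.1 hf.1)
  · intro f hf
    refine (Submodule.isClosed_topologicalClosure _).mem_of_tendsto (hasSum_L f)
      (Eventually.of_forall fun s => ?_)
    exact Submodule.sum_mem _ fun p _ => Submodule.le_topologicalClosure _ (single_mem f hf p)

lemma descent_B : ∃ d, IsDescent opB d ∧ d ≤ 1 := by
  have key : ran (opB ^ (1 + 1)) = ran (opB ^ 1) := by
    apply le_antisymm
    · rintro _ ⟨f, rfl⟩
      exact ⟨opB f, (pow_succ_apply' opB 1 f).symm⟩
    · rintro _ ⟨f, rfl⟩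
      refine ⟨opA f, ?_⟩
      change (opB ^ (1 + 1)) (opA f) = (opB ^ 1) f
      rw [pow_succ_apply, pow_one]
      refine ext_L (fun j => ?_) fun i j => ?_
      · rw [opB_zero, opB_succ, opA_succ, opB_zero]
      · rw [opB_succ, opB_succ, opA_succ, opB_succ]
  classical
  exact ⟨Nat.find ⟨1, key⟩, ⟨Nat.find_spec (⟨1, key⟩ : ∃ k, ran (opB ^ (k + 1)) = ran (opB ^ k)),
    fun k hk => Nat.find_min' _ hk⟩, Nat.find_min' _ key⟩

lemma dim_top {W : Submodule ℂ L} (v : ℕ → L) (hv : ∀ j, v j ∈ W) (a : ℕ)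
    (h : ∀ j k, v j (a, k) = if k = j then 1 else 0) : dim W = ⊤ := by
  unfold dim
  rw [Cardinal.toENat_eq_top]
  have hli : LinearIndependent ℂ fun j : ℕ => (⟨v j, hv j⟩ : W) := by
    rw [linearIndependent_iff']
    intro s g hg k hk
    have h1 := congrArg (fun x : W => (x : L) (a, k)) hg
    simp only [Submodule.coe_sum, Submodule.coe_smul, ZeroMemClass.coe_zero] at h1
    rw [lp.coeFn_sum, Finset.sum_apply] at h1
    simp only [lp.coeFn_smul, Pi.smul_apply, h, smul_eq_mul, mul_ite, mul_one, mul_zero,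
      Finset.sum_ite_eq, if_pos hk] at h1
    exact h1
  have := hli.cardinal_le_rank
  simpa using this

/-- a vector supported on a column -/
noncomputable def col (j : ℕ) (u : ℕ → ℂ) (hu : Summable fun i => ‖u i‖ ^ 2) : L :=
  ⟨fun p => if p.2 = j then u p.1 else 0, (memL _).2 (by
    have hinj : Function.Injective fun i : ℕ => (i, j) := fun a b h => congrArg Prod.fst h
    refine (hinj.summable_iff ?_).1 ?_
    · rintro ⟨a, b⟩ hp
      have : b ≠ j := by
        rintro rfl
        exact hp ⟨a, rfl⟩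
      simp [this]
    · simpa [Function.comp_def] using hu)⟩

lemma col_apply (j : ℕ) (u : ℕ → ℂ) (hu : Summable fun i => ‖u i‖ ^ 2) (i k : ℕ) :
    col j u hu (i, k) = if k = j then u i else 0 := rfl

lemma summ_geom {z : ℂ} (hz : ‖z‖ < 1) : Summable fun i : ℕ => ‖z ^ i‖ ^ 2 := by
  have : (fun i : ℕ => ‖z ^ i‖ ^ 2) = fun i : ℕ => (‖z‖ ^ 2) ^ i := by
    ext i; rw [norm_pow, ← pow_mul, ← pow_mul, mul_comm]
  rw [this]
  exact summable_geometric_of_lt_one (by positivity) (pow_lt_one₀ (norm_nonneg _) hz (by norm_num))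

lemma dim_ker {z : ℂ} (h0 : 0 < ‖z‖) (h1 : ‖z‖ < 1) : dim (ker (opB - z • 1)) = ⊤ := by
  have hz : z ≠ 0 := norm_pos_iff.1 h0
  have hs : ∀ j : ℕ, Summable fun i : ℕ =>
      ‖(if i = 0 then 1 / (z * ((j : ℂ) + 1)) else z ^ (i - 1) : ℂ)‖ ^ 2 := by
    intro j
    refine (summable_nat_add_iff 1).1 ?_
    refine (summ_geom h1).congr fun i => ?_
    rw [if_neg (by omega), Nat.add_sub_cancel]
  refine dim_top (fun j => col j _ (hs j)) (fun j => ?_) 1 fun j k => ?_
  · rw [mem_ker, sub_apply, sub_eq_zero]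
    change opB _ = z • col j _ (hs j)
    refine ext_L (fun k => ?_) fun i k => ?_
    · rw [opB_zero, lp.coeFn_smul, Pi.smul_apply, col_apply, col_apply, smul_eq_mul]
      by_cases hk : k = j
      · subst hk
        have h2 : ((k : ℂ) + 1) ≠ 0 := by exact_mod_cast Nat.succ_ne_zero k
        rw [if_pos rfl, if_pos rfl, if_neg one_ne_zero, if_pos rfl]
        simp only [Nat.sub_self, pow_zero, mul_one]
        field_simp
      · rw [if_neg hk, if_neg hk, mul_zero, mul_zero]
    · rw [opB_succ, lp.coeFn_smul, Pi.smul_apply, col_apply, col_apply, smul_eq_mul]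
      by_cases hk : k = j
      · rw [if_pos hk, if_pos hk, if_neg (by omega), if_neg (by omega)]
        rw [show i + 2 - 1 = i + 1 by omega, show i + 1 - 1 = i by omega, pow_succ']
      · rw [if_neg hk, if_neg hk, mul_zero]
  · rw [col_apply, if_neg one_ne_zero]
    simp

lemma dim_coker {z : ℂ} (h1 : ‖z‖ < 1) : dim (ran (opA - z • 1))ᗮ = ⊤ := by
  have h1' : ‖(starRingEnd ℂ) z‖ < 1 := by rwa [RCLike.norm_conj]
  refine dim_top (fun j => col j _ (summ_geom h1')) (fun j => ?_) 0 fun j k => ?_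
  · rw [Submodule.mem_orthogonal']
    rintro _ ⟨f, rfl⟩
    set v := col j _ (summ_geom h1') with hv
    have h2 := ((innerSL ℂ v).comp (opA - z • (1 : L →L[ℂ] L))).hasSum (hasSum_L f)
    have h3 : ∀ p : ℕ × ℕ, ((innerSL ℂ v).comp (opA - z • (1 : L →L[ℂ] L)))
        (lp.single 2 p (f p) : L) = 0 := by
      rintro ⟨i, k⟩
      have h4 : (opA - z • (1 : L →L[ℂ] L)) (lp.single 2 (i, k) (f (i, k)) : L) =
          (lp.single 2 (i + 1, k) (f (i, k)) : L) -
            (lp.single 2 (i, k) (z * f (i, k)) : L) := by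
        have h5 : opA (lp.single 2 (i, k) (f (i, k)) : L) =
            (lp.single 2 (i + 1, k) (f (i, k)) : L) := by
          refine ext_L (fun b => ?_) fun a b => ?_
          · rw [opA_zero, single_apply, if_neg (by simp)]
          · rw [opA_succ, single_apply, single_apply]
            by_cases hab : (a, b) = (i, k)
            · rw [if_pos hab, if_pos (by simp only [Prod.mk.injEq] at hab ⊢; omega)]
            · rw [if_neg hab, if_neg (by simp only [Prod.mk.injEq] at hab ⊢; omega)]
        have h6 : z • (lp.single 2 (i, k) (f (i, k)) : L) =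
            (lp.single 2 (i, k) (z * f (i, k)) : L) := by
          ext q
          rw [lp.coeFn_smul, Pi.smul_apply, single_apply, single_apply]
          split_ifs <;> simp
        rw [sub_apply, h5, ← h6]
        rfl
      rw [ContinuousLinearMap.comp_apply, h4, map_sub, innerSL_apply_apply, innerSL_apply_apply,
        lp.inner_single_right, lp.inner_single_right, hv, col_apply, col_apply]
      by_cases hk : k = j
      · rw [if_pos hk, if_pos hk]
        simp only [RCLike.inner_apply, map_pow, RingHomCompTriple.comp_apply, RingHom.id_apply]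
        ring
      · rw [if_neg hk, if_neg hk]
        simp
    simp only [h3] at h2
    exact h2.unique hasSum_zero
  · rw [col_apply]
    simp

lemma condIII : CondIII opA opB :=
  ⟨1, one_pos, fun z h0 h1 => by rw [dim_ker h0 h1, dim_coker h1]⟩

lemma condE : CondE opA opB 1 := by
  refine ⟨by rw [S_eq]; exact ran_A_closed, by rw [S_perp, T_eq]⟩

lemma admissible : Admissible opA opB 1 opC := by
  refine ⟨(LinearIsometryEquiv.ofEq _ _ (T_eq.trans S_perp.symm)).toContinuousLinearEquiv,
    fun t => ?_, fun x hx => ?_⟩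
  · have ht : (t : L) ∈ Row0 := T_eq.le t.2
    change opC (t : L) = (t : L)
    refine ext_L (fun j => opC_zero _ j) fun i j => ?_
    rw [opC_succ, ht i j]
  · rw [T_eq] at hx
    refine ext_L (fun j => ?_) fun i j => ?_
    · rw [opC_zero, ← inner_single]
      refine (Submodule.mem_orthogonal _ _).1 hx _ fun i k => ?_
      rw [single_apply, if_neg (by simp)]
    · rw [opC_succ]; rfl

lemma MC_inj {x : L × L} (h : MC opA opB opC x = 0) : x = 0 := by
  obtain ⟨f, k⟩ := x
  rw [MC_apply] at h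
  have h1 : opA f + opC k = 0 := congrArg Prod.fst h
  have h2 : opB k = 0 := congrArg Prod.snd h
  have hk : k = 0 := by
    refine ext_L (fun j => ?_) fun i j => ?_
    · have h3 : (opA f + opC k) (0, j) = 0 := by rw [h1]; rfl
      rw [lp.coeFn_add, Pi.add_apply, opA_zero, opC_zero, zero_add] at h3
      exact h3
    · exact ker_B h2 i j
  subst hk
  rw [map_zero, add_zero] at h1
  rw [opA_inj h1]; rfl

lemma MC_pow_inj (n : ℕ) {x : L × L} (h : (MC opA opB opC ^ n) x = 0) : x = 0 := by
  induction n with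
  | zero => exact h
  | succ n ih =>
    rw [pow_succ_apply] at h
    exact ih (MC_inj h)

lemma not_drazin : ¬ DrazinInvertible (MC opA opB opC) := by
  rintro ⟨-, d, hd, -⟩
  have hd' : ran (MC opA opB opC ^ (d + 1)) = ran (MC opA opB opC ^ d) := hd
  have hsurj : ∀ v, ∃ u, MC opA opB opC u = v := by
    intro v
    have h1 : (MC opA opB opC ^ d) v ∈ ran (MC opA opB opC ^ (d + 1)) := by
      rw [hd']; exact ⟨v, rfl⟩
    obtain ⟨u, hu⟩ := h1
    have hu' : (MC opA opB opC ^ (d + 1)) u = (MC opA opB opC ^ d) v := hu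
    refine ⟨u, ?_⟩
    rw [pow_succ_apply', ← sub_eq_zero, ← map_sub] at hu'
    exact sub_eq_zero.1 (MC_pow_inj d hu')
  have hg : Summable fun j : ℕ => ‖(1 / ((j : ℂ) + 1))‖ ^ 2 := by
    have h1 : Summable fun j : ℕ => 1 / (((j + 1 : ℕ) : ℝ)) ^ 2 :=
      (summable_nat_add_iff 1).2 (Real.summable_one_div_nat_pow.2 (by norm_num))
    refine h1.congr fun j => ?_
    rw [norm_div, norm_one, ← Nat.cast_succ, Complex.norm_natCast, div_pow, one_pow]
  let g : L := ⟨fun p => if p.1 = 0 then 1 / ((p.2 : ℂ) + 1) else 0, (memL _).2 (by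
    have hinj : Function.Injective fun j : ℕ => (0, j) := fun a b h => congrArg Prod.snd h
    refine (hinj.summable_iff ?_).1 ?_
    · rintro ⟨a, b⟩ hp
      have : a ≠ 0 := by
        rintro rfl
        exact hp ⟨b, rfl⟩
      simp [this]
    · simpa [Function.comp_def] using hg)⟩
  obtain ⟨⟨f, k⟩, hu⟩ := hsurj (0, g)
  rw [MC_apply] at hu
  have h2 : opB k = g := congrArg Prod.snd hu
  have h3 : ∀ j, k (1, j) = 1 := by
    intro j
    have h4 : opB k (0, j) = g (0, j) := by rw [h2]
    rw [opB_zero] at h4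
    have h5 : g (0, j) = 1 / ((j : ℂ) + 1) := rfl
    rw [h5] at h4
    have h0 : ((j : ℂ) + 1) ≠ 0 := by exact_mod_cast Nat.succ_ne_zero j
    field_simp at h4
    simpa using h4
  have h6 := (summL k).comp_injective
    (fun a b h => congrArg Prod.snd h : Function.Injective fun j : ℕ => (1, j))
  simp only [Function.comp_def, h3, norm_one, one_pow] at h6
  have h7 := h6.tendsto_atTop_zero
  exact one_ne_zero (tendsto_nhds_unique tendsto_const_nhds h7)

lemma fails : FailsQ1 L L := by
  refine ⟨opA, opB, opC, 1, leftDrazin_A, ?_, condIII, ?_, condE, admissible, not_drazin⟩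
  · obtain ⟨d, hd, -⟩ := descent_B
    exact ⟨d, hd⟩
  · exact ⟨le_rfl, ⟨0, ascent_A, Nat.zero_le _⟩, descent_B⟩

lemma infinite_L : ¬ FiniteDimensional ℂ L := by
  intro h
  have h1 : dim (⊤ : Submodule ℂ L) = ⊤ := by
    refine dim_top (fun j => (lp.single 2 (0, j) (1 : ℂ) : L)) (fun j => Submodule.mem_top) 0
      fun j k => ?_
    rw [single_apply]
    by_cases hk : k = j
    · rw [if_pos hk, if_pos (by rw [hk])]
    · rw [if_neg hk, if_neg (by simp [hk])]
  unfold dim at h1
  rw [Cardinal.toENat_eq_top, ← not_lt] at h1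
  exact h1 (Module.rank_lt_aleph0_iff.2 inferInstance)

lemma separable_L : TopologicalSpace.SeparableSpace L := by
  rw [← TopologicalSpace.isSeparable_univ_iff]
  have h1 : TopologicalSpace.IsSeparable
      (Set.range fun i : ℕ × ℕ => (lp.single 2 i (1 : ℂ) : L)) :=
    (Set.countable_range _).isSeparable
  have h2 := (h1.span (R := ℂ)).closure
  refine h2.mono fun f _ => ?_
  refine mem_closure_of_tendsto (hasSum_L f) (Eventually.of_forall fun s => ?_)
  refine Submodule.sum_mem _ fun p _ => ?_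
  have : (lp.single 2 p (f p) : L) = (f p) • (lp.single 2 p (1 : ℂ) : L) := by
    ext q
    rw [lp.coeFn_smul, Pi.smul_apply, single_apply, single_apply]
    split_ifs <;> simp
  rw [this]
  exact Submodule.smul_mem _ _ (Submodule.subset_span ⟨p, rfl⟩)

end Pool.Agent.Q186.Drazin
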